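import Pool.Agent.MP_81f5b7_pr.H66.Spec

/-! One frozen colour produces the others. -/

set_option linter.unusedSectionVars false

namespace Pool.Agent.MP_81f5b7_pr.H66

open Finset
open scoped Classical

namespace SPD

variable {V : Type} [Fintype V] [DecidableEq V] {τ : V → C3} {Z : Finset V}
  {S S' : Finset (V → C3)} {a β : C3} {q k u : ℝ}

/-- the potential -/
noncomputable def pot (a : C3) (S : Finset (V → C3)) : ℝ := Real.exp (-((Fa S a).card : ℝ))

/-- free vertices of a type -/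
noncomputable def fre (τ : V → C3) (Z : Finset V) (c : C3) (S : Finset (V → C3)) : Finset V :=
  (Ty τ Z c).filter fun v => ¬Fz S v

theorem pot_pos (a : C3) (S : Finset (V → C3)) : 0 < pot a S := Real.exp_pos _

theorem pot_mono (h : S' ⊆ S) (a : C3) : pot a S' ≤ pot a S :=
  Real.exp_le_exp.2 (neg_le_neg (Nat.cast_le.2 (card_le_card (Fa_mono h a))))

theorem fre_mono (h : S' ⊆ S) (c : C3) : fre τ Z c S' ⊆ fre τ Z c S := fun _ hv =>
  mem_filter.2 ⟨(mem_filter.1 hv).1, fun h' => (mem_filter.1 hv).2 (h'.mono h)⟩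

theorem pot_pair (hS : S ⊆ S0 τ Z) (hab : a ≠ β) {y w : V} (hy : y ∈ fre τ Z (-a - β) S)
    (hw : w ∈ Fa S β) : pot a S / 2 ≤ pot a S - pot a (gr S {s(y, w)}) := by
  obtain ⟨h1, h2⟩ := mem_filter.1 hy
  obtain ⟨h3, h4⟩ := mem_Ty.1 h1
  obtain ⟨σ, hσ, h5⟩ := not_Fz h2 β
  have h6 : insert y (Fa S a) ⊆ Fa (gr S {s(y, w)}) a := by
    refine insert_subset ?_ (Fa_mono (gr_sub _ _) a)
    rw [gr_pair ⟨σ, hσ, by rwa [mem_Fa.1 hw σ hσ]⟩]
    refine mem_Fa.2 fun σ' h => ?_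
    obtain ⟨h7, h8⟩ := mem_filter.1 h
    rw [mem_Fa.1 hw σ' h7] at h8
    have h9 := (al_of_notMem h3).1 (mem_S0.1 (hS h7) y)
    rw [h4] at h9
    exact (by decide : ∀ a β c : C3, a ≠ β → c ≠ -a - β → c ≠ β → c = a) _ _ _ hab h9 h8
  have h7 := card_le_card h6
  rw [card_insert_of_notMem fun h => h2 (Fz_of_Fa h)] at h7
  have h8 : ((Fa S a).card : ℝ) + 1 ≤ (Fa (gr S {s(y, w)}) a).card := by exact_mod_cast h7
  have h9 : pot a (gr S {s(y, w)}) * Real.exp 1 ≤ pot a S := by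
    unfold pot
    rw [← Real.exp_add]
    exact Real.exp_le_exp.2 (by linarith)
  have h10 := Real.add_one_le_exp 1
  nlinarith [pot_pos a (gr S {s(y, w)})]

theorem sum_pair (hS : S ⊆ S0 τ Z) (hab : a ≠ β) (hk0 : 0 ≤ k) (hk : k ≤ (Fa S β).card)
    (hu : u ≤ (fre τ Z (-a - β) S).card) :
    k * u * (pot a S / 2) ≤ ∑ e : Sym2 V, (pot a S - pot a (gr S {e})) := by
  have inj : Set.InjOn (fun z : V × V => s(z.1, z.2)) (fre τ Z (-a - β) S ×ˢ Fa S β : Finset _) := by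
    rintro ⟨y, w⟩ h ⟨y', w'⟩ h' e
    rw [mem_coe, mem_product] at h h'
    rcases Sym2.eq_iff.1 e with ⟨e1, e2⟩ | ⟨e1, -⟩
    · exact Prod.ext e1 e2
    · have e3 : y = w' := e1
      exact ((mem_filter.1 h.1).2 (e3 ▸ Fz_of_Fa h'.2)).elim
  have h1 : ∑ e ∈ (fre τ Z (-a - β) S ×ˢ Fa S β).image fun z : V × V => s(z.1, z.2),
      (pot a S - pot a (gr S {e})) ≤ ∑ e : Sym2 V, (pot a S - pot a (gr S {e})) :=
    sum_le_sum_of_subset_of_nonneg (subset_univ _) fun e _ _ =>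
      sub_nonneg.2 (pot_mono (gr_sub _ _) a)
  rw [sum_image inj] at h1
  refine le_trans ?_ h1
  have h2 := card_nsmul_le_sum (fre τ Z (-a - β) S ×ˢ Fa S β)
    (fun z : V × V => pot a S - pot a (gr S {s(z.1, z.2)})) (pot a S / 2) fun z hz =>
      pot_pair hS hab (mem_product.1 hz).1 (mem_product.1 hz).2
  refine le_trans ?_ h2
  rw [nsmul_eq_mul, card_product, Nat.cast_mul, mul_comm k u]
  refine mul_le_mul_of_nonneg_right ?_ (half_pos (pot_pos a S)).le
  exact mul_le_mul hu hk hk0 (Nat.cast_nonneg _)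

theorem step (hn : 2 ≤ Fintype.card V) (hq : Tiny V q) (hS : S ⊆ S0 τ Z) (hab : a ≠ β)
    (hk0 : 0 ≤ k) (hu0 : 0 ≤ u) (hk : k ≤ (Fa S β).card) (hu : u ≤ (fre τ Z (-a - β) S).card) :
    Ex q univ (fun B => pot a (gr S B)) ≤ pot a S * Real.exp (-(q * k * u / 4)) := by
  obtain ⟨h0, h1, -, h2⟩ := hq.le hn
  have h3 := Ex_single (s := univ) (F := fun B => pot a S - pot a (gr S B)) h0 h1
    fun B _ => sub_nonneg.2 (pot_mono (gr_sub _ _) a)
  rw [Ex_sub, Ex_const, card_univ] at h3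
  have h4 := sum_pair hS hab hk0 hk hu
  have h5 := half_le h0 h1 h2
  have h6 : 0 ≤ k * u * (pot a S / 2) :=
    mul_nonneg (mul_nonneg hk0 hu0) (half_pos (pot_pos a S)).le
  have h7 := mul_le_mul h5 h4 h6 (le_trans (by linarith) h5)
  have h8 := mul_le_mul_of_nonneg_left (Real.add_one_le_exp (-(q * k * u / 4))) (pot_pos a S).le
  nlinarith

theorem main (hn : 2 ≤ Fintype.card V) (hq : Tiny V q) (hab : a ≠ β) (hk0 : 0 ≤ k) (hu0 : 0 ≤ u)
    (m : ℕ) : ∀ S : Finset (V → C3), S ⊆ S0 τ Z → k ≤ (Fa S β).card →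
      EL q m (fun l => pot a (run S l) * ind (u ≤ (fre τ Z (-a - β) (run S l)).card)) ≤
        pot a S * Real.exp (-(m * q * k * u / 4)) := by
  obtain ⟨h0, h1, -, -⟩ := hq.le hn
  induction m with
  | zero =>
    intro S _ _
    rw [EL_zero, run_nil]
    refine mul_le_mul_of_nonneg_left ((ind_le_one _).trans (le_of_eq ?_)) (pot_pos a S).le
    simp
  | succ m ih =>
    intro S hS hk
    by_cases hu : u ≤ (fre τ Z (-a - β) S).card
    · rw [EL_succ]
      refine le_trans (Ex_mono h0 h1 fun B _ => ih (gr S B) ((gr_sub _ _).trans hS)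
        (hk.trans (Nat.cast_le.2 (card_le_card (Fa_mono (gr_sub _ _) β))))) ?_
      rw [Ex_mul']
      refine le_trans (mul_le_mul_of_nonneg_right (step hn hq hS hab hk0 hu0 hk hu)
        (Real.exp_pos _).le) (le_of_eq ?_)
      rw [mul_assoc, ← Real.exp_add]
      congr 2
      push_cast
      ring
    · refine EL_le h0 h1 fun l _ => ?_
      rw [ind_neg fun h => hu (h.trans (Nat.cast_le.2 (card_le_card (fre_mono (run_sub S l) _)))),
        mul_zero]
      exact mul_nonneg (pot_pos a S).le (Real.exp_pos _).le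

end SPD

theorem rowSPD : SSPD := by
  intro V _ _ τ Z q m S a β k u y hn hq hS _ hab hk0 hu0 hk
  obtain ⟨h0, h1, -, -⟩ := hq.le hn
  have h2 := SPD.main (τ := τ) (Z := Z) hn hq hab hk0 hu0 m S hS hk
  refine le_trans (PL_markov (f := fun l => SPD.pot a (run S l) *
    ind (u ≤ (SPD.fre τ Z (-a - β) (run S l)).card)) h0 h1 (Real.exp_pos (-y))
    (fun l _ => mul_nonneg (SPD.pot_pos _ _).le (ind_nonneg _)) fun l _ h => ?_) ?_
  · rw [ind_pos (P := u ≤ (SPD.fre τ Z (-a - β) (run S l)).card) h.2, mul_one]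
    exact Real.exp_le_exp.2 (neg_le_neg h.1)
  · rw [div_le_iff₀ (Real.exp_pos _), ← Real.exp_add]
    refine h2.trans ?_
    unfold SPD.pot
    rw [← Real.exp_add]
    refine Real.exp_le_exp.2 ?_
    have : (0 : ℝ) ≤ (Fa S a).card := Nat.cast_nonneg _
    linarith

end Pool.Agent.MP_81f5b7_pr.H66
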